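import Pool.Agent.Levi3.LV37

/-!
Recognition of Levi graphs of geometric 3-configurations (LEVI-3) is in P.
-/

namespace Pool.Agent.Results.MP_25fa8b_lc.LeviInP

open Pool.Agent.Levi3

open Classical in
/-- There is a polynomial time Turing machine which decides, for a square matrix of zeros and
ones, whether it is the incidence matrix of a bipartite cubic graph which is the Levi graph of a
geometric configuration of points and lines in the real plane. -/
theorem result : Nonempty (Turing.TM2ComputableInPolyTime encodeMatrix Computability.encodeBool
    (fun M => decide (IsCubic M.2 ∧ IsGeometric M.2))) :=
  levi_in_P

end Pool.Agent.Results.MP_25fa8b_lc.LeviInP
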